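import Mathlib

/-!
Lipschitz homeomorphisms without points of Gateaux differentiability.
-/

open Filter Topology Set Metric

set_option autoImplicit false

namespace Pool.Agent.U583.LG

/-- `φ` is Gateaux differentiable at `x`. -/
def GateauxAt {X Y : Type*} [NormedAddCommGroup X] [NormedSpace ℝ X] [NormedAddCommGroup Y]
    [NormedSpace ℝ Y] (φ : X → Y) (x : X) : Prop :=
  ∃ T : X →L[ℝ] Y, ∀ h : X, Tendsto (fun t : ℝ => t⁻¹ • (φ (x + t • h) - φ x)) (𝓝[≠] 0) (𝓝 (T h))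

/-- The one-sided derivative of `φ` at `x` in the direction `h` exists. -/
def OneSidedAt {X Y : Type*} [NormedAddCommGroup X] [NormedSpace ℝ X] [NormedAddCommGroup Y]
    [NormedSpace ℝ Y] (φ : X → Y) (x h : X) : Prop :=
  ∃ w : Y, Tendsto (fun t : ℝ => t⁻¹ • (φ (x + t • h) - φ x)) (𝓝[>] 0) (𝓝 w)

/-- `φ` is a Lipschitz homeomorphism of `X` onto `Y`. -/
def LipHomeo {X Y : Type*} [NormedAddCommGroup X] [NormedAddCommGroup Y] (φ : X → Y) : Prop :=
  Function.Bijective φ ∧ ∃ K : ℝ, 0 < K ∧ ∀ x y : X, ‖φ x - φ y‖ ≤ K * ‖x - y‖ ∧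
    ‖x - y‖ ≤ K * ‖φ x - φ y‖

/-- The Banach space `X` is reflexive. -/
def Refl (X : Type*) [NormedAddCommGroup X] [NormedSpace ℝ X] : Prop :=
  ∀ F : (X →L[ℝ] ℝ) →L[ℝ] ℝ, ∃ x : X, ∀ l : X →L[ℝ] ℝ, F l = l x

/-- `Z` is finitely representable in `X`. -/
def FinRep (Z X : Type*) [NormedAddCommGroup Z] [NormedSpace ℝ Z] [NormedAddCommGroup X]
    [NormedSpace ℝ X] : Prop :=
  ∀ E : Submodule ℝ Z, FiniteDimensional ℝ E → ∀ ε : ℝ, 0 < ε →
    ∃ T : E →ₗ[ℝ] X, ∀ z : E, ‖z‖ ≤ ‖T z‖ ∧ ‖T z‖ ≤ (1 + ε) * ‖z‖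

/-- `X` is superreflexive: every Banach space finitely representable in `X` is reflexive. -/
def SuperRefl.{u, v} (X : Type u) [NormedAddCommGroup X] [NormedSpace ℝ X] : Prop :=
  ∀ (Z : Type v) [NormedAddCommGroup Z] [NormedSpace ℝ Z] [CompleteSpace Z],
    FinRep Z X → Refl Z

/-! ### Hilbert spaces are superreflexive -/

theorem refl_hilbert (H : Type*) [NormedAddCommGroup H] [InnerProductSpace ℝ H] [CompleteSpace H] :
    Refl H := by
  intro F
  let G : H →L[ℝ] ℝ := LinearMap.mkContinuous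
    { toFun := fun y => F (InnerProductSpace.toDual ℝ H y)
      map_add' := fun y z => by rw [map_add, map_add]
      map_smul' := fun c y => by
        rw [map_smulₛₗ, map_smul]; simp } ‖F‖ (fun y => by
        have := F.le_opNorm (InnerProductSpace.toDual ℝ H y)
        simpa using this)
  refine ⟨(InnerProductSpace.toDual ℝ H).symm G, fun l => ?_⟩
  obtain ⟨y, rfl⟩ := (InnerProductSpace.toDual ℝ H).surjective l
  have h1 : G y = F ((InnerProductSpace.toDual ℝ H) y) := rfl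
  rw [← h1, InnerProductSpace.toDual_apply_apply, real_inner_comm,
    InnerProductSpace.toDual_symm_apply]

theorem parallelogram_of_finRep {Z H : Type*} [NormedAddCommGroup Z] [NormedSpace ℝ Z]
    [NormedAddCommGroup H] [InnerProductSpace ℝ H] (h : FinRep Z H) (x y : Z) :
    ‖x + y‖ * ‖x + y‖ + ‖x - y‖ * ‖x - y‖ = 2 * (‖x‖ * ‖x‖ + ‖y‖ * ‖y‖) := by
  have key : ∀ ε : ℝ, 0 < ε →
      ‖x + y‖ * ‖x + y‖ + ‖x - y‖ * ‖x - y‖ ≤ (1 + ε) ^ 2 * (2 * (‖x‖ * ‖x‖ + ‖y‖ * ‖y‖)) ∧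
      2 * (‖x‖ * ‖x‖ + ‖y‖ * ‖y‖) ≤ (1 + ε) ^ 2 * (‖x + y‖ * ‖x + y‖ + ‖x - y‖ * ‖x - y‖) := by
    intro ε hε
    let E : Submodule ℝ Z := Submodule.span ℝ {x, y}
    have hfin : FiniteDimensional ℝ E := FiniteDimensional.span_of_finite ℝ (by simp)
    obtain ⟨T, hT⟩ := h E hfin ε hε
    let a : E := ⟨x, Submodule.subset_span (by simp)⟩
    let b : E := ⟨y, Submodule.subset_span (by simp)⟩
    have ha := hT a
    have hb := hT b
    have hab := hT (a + b)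
    have hab' := hT (a - b)
    have e1 : ‖a‖ = ‖x‖ := rfl
    have e2 : ‖b‖ = ‖y‖ := rfl
    have e3 : ‖a + b‖ = ‖x + y‖ := rfl
    have e4 : ‖a - b‖ = ‖x - y‖ := rfl
    rw [map_add] at hab
    rw [map_sub] at hab'
    rw [e1] at ha
    rw [e2] at hb
    rw [e3] at hab
    rw [e4] at hab'
    have hp := parallelogram_law_with_norm ℝ (T a) (T b)
    have sq : ∀ {p q : ℝ}, 0 ≤ p → p ≤ q → p * p ≤ q * q := fun hp hpq =>
      mul_le_mul hpq hpq hp (hp.trans hpq)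
    have q1 := sq (norm_nonneg _) ha.1
    have q2 := sq (norm_nonneg _) ha.2
    have q3 := sq (norm_nonneg _) hb.1
    have q4 := sq (norm_nonneg _) hb.2
    have q5 := sq (norm_nonneg _) hab.1
    have q6 := sq (norm_nonneg _) hab.2
    have q7 := sq (norm_nonneg _) hab'.1
    have q8 := sq (norm_nonneg _) hab'.2
    constructor
    · nlinarith
    · nlinarith
  have lim : ∀ c : ℝ, Tendsto (fun ε : ℝ => (1 + ε) ^ 2 * c) (𝓝[>] 0) (𝓝 c) := by
    intro c
    have : Tendsto (fun ε : ℝ => (1 + ε) ^ 2 * c) (𝓝 0) (𝓝 ((1 + 0) ^ 2 * c)) :=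
      (Continuous.tendsto (by fun_prop) 0)
    rw [add_zero, one_pow, one_mul] at this
    exact this.mono_left nhdsWithin_le_nhds
  apply le_antisymm
  · exact ge_of_tendsto (lim _) (eventually_nhdsWithin_of_forall fun ε hε => (key ε hε).1)
  · exact ge_of_tendsto (lim _) (eventually_nhdsWithin_of_forall fun ε hε => (key ε hε).2)

theorem superRefl_hilbert.{u, v} (H : Type u) [NormedAddCommGroup H] [InnerProductSpace ℝ H] :
    SuperRefl.{u, v} H := by
  intro Z _ _ _ hZ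
  let i : InnerProductSpace ℝ Z := InnerProductSpace.ofNorm ℝ (parallelogram_of_finRep hZ)
  exact @refl_hilbert Z _ i _

/-! ### The scalar function -/

/-- The set `{0} ∪ {± 4 ^ (-k)}`. -/
def S : Set ℝ := {s | s = 0 ∨ ∃ k : ℕ, |s| = (1 / 4 : ℝ) ^ k}

/-- The distance to `S`. -/
noncomputable def g (t : ℝ) : ℝ := infDist t S

theorem g_lip (s t : ℝ) : |g s - g t| ≤ |s - t| := by
  have := (lipschitz_infDist_pt S).dist_le_mul s t
  simpa [g, Real.dist_eq] using this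

theorem g_zero : g 0 = 0 := infDist_zero_of_mem (show (0 : ℝ) ∈ S from Or.inl rfl)

theorem g_pt (σ : ℝ) (hσ : |σ| = 1) (k : ℕ) : g (σ * (1 / 4 : ℝ) ^ k) = 0 := by
  refine infDist_zero_of_mem (show σ * (1 / 4 : ℝ) ^ k ∈ S from Or.inr ⟨k, ?_⟩)
  rw [abs_mul, hσ, one_mul, abs_of_pos (by positivity)]

theorem g_mid (σ : ℝ) (hσ : |σ| = 1) (k : ℕ) :
    (1 / 4 : ℝ) ^ k ≤ g (σ * (2 * (1 / 4 : ℝ) ^ k)) := by
  refine (le_infDist (show Set.Nonempty S from ⟨0, Or.inl rfl⟩)).2 fun s hs => ?_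
  have hk : (0 : ℝ) < (1 / 4 : ℝ) ^ k := by positivity
  have habs : |σ * (2 * (1 / 4 : ℝ) ^ k)| = 2 * (1 / 4 : ℝ) ^ k := by
    rw [abs_mul, hσ, one_mul, abs_of_pos (by positivity)]
  rw [Real.dist_eq]
  have h1 := abs_sub_abs_le_abs_sub (σ * (2 * (1 / 4 : ℝ) ^ k)) s
  have h2 := abs_sub_abs_le_abs_sub s (σ * (2 * (1 / 4 : ℝ) ^ k))
  rw [abs_sub_comm] at h2
  rcases hs with rfl | ⟨j, hj⟩
  · rw [sub_zero, habs]; linarith
  · rw [habs, hj] at h1 h2
    rcases le_or_gt k j with hjk | hjk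
    · have : (1 / 4 : ℝ) ^ j ≤ (1 / 4 : ℝ) ^ k :=
        pow_le_pow_of_le_one (by norm_num) (by norm_num) hjk
      linarith
    · have : (1 / 4 : ℝ) ^ k ≤ (1 / 4 : ℝ) ^ (j + 1) :=
        pow_le_pow_of_le_one (by norm_num) (by norm_num) hjk
      rw [pow_succ] at this
      linarith

/-- The difference quotients of `g` at zero do not converge. -/
theorem g_not_conv (σ : ℝ) (hσ : |σ| = 1) (w : ℝ) :
    ¬ Tendsto (fun t : ℝ => t⁻¹ * g (t * σ)) (𝓝[>] 0) (𝓝 w) := by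
  intro h
  have h4 : Tendsto (fun k : ℕ => (1 / 4 : ℝ) ^ k) atTop (𝓝 0) :=
    tendsto_pow_atTop_nhds_zero_of_lt_one (by norm_num) (by norm_num)
  have hA : Tendsto (fun k : ℕ => (1 / 4 : ℝ) ^ k) atTop (𝓝[>] 0) :=
    tendsto_nhdsWithin_iff.2 ⟨h4, Eventually.of_forall fun k => by
      simp only [mem_Ioi]; positivity⟩
  have hB : Tendsto (fun k : ℕ => 2 * (1 / 4 : ℝ) ^ k) atTop (𝓝[>] 0) := by
    refine tendsto_nhdsWithin_iff.2 ⟨?_, Eventually.of_forall fun k => by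
      simp only [mem_Ioi]; positivity⟩
    simpa using h4.const_mul 2
  have h1 := h.comp hA
  have h2 := h.comp hB
  have e1 : w = 0 := by
    refine tendsto_nhds_unique h1 ?_
    refine (tendsto_const_nhds (x := (0 : ℝ))).congr fun k => ?_
    simp only [Function.comp]
    rw [mul_comm _ σ, g_pt σ hσ, mul_zero]
  have e2 : (1 / 2 : ℝ) ≤ w := by
    refine ge_of_tendsto h2 (Eventually.of_forall fun k => ?_)
    simp only [Function.comp]
    have h3 := g_mid σ hσ k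
    have hk : (0 : ℝ) < (1 / 4 : ℝ) ^ k := by positivity
    rw [mul_comm _ σ, inv_mul_eq_div, le_div_iff₀ (by positivity)]
    linarith
  rw [e1] at e2
  norm_num at e2

end Pool.Agent.U583.LG
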