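import Pool.Agent.U583.LG.Basic

/-!
The construction of nowhere Gateaux differentiable Lipschitz homeomorphisms.
-/

open Filter Topology Set

set_option autoImplicit false

namespace Pool.Agent.U583.LG

section sums

variable {X : Type*} [NormedAddCommGroup X] {Γ : Type*}

theorem partial_bound [CompleteSpace X] {v : Γ → X} (hv : Summable v) :
    ∃ C : ℝ, ∀ F : Finset Γ, ‖∑ i ∈ F, v i‖ ≤ C := by
  classical
  obtain ⟨s, hs⟩ := summable_iff_vanishing_norm.1 hv 1 one_pos
  refine ⟨∑ i ∈ s, ‖v i‖ + 1, fun F => ?_⟩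
  rw [← Finset.sum_inter_add_sum_sdiff F s]
  refine (norm_add_le _ _).trans (add_le_add ?_ (hs _ Finset.sdiff_disjoint).le)
  exact (norm_sum_le _ _).trans
    (Finset.sum_le_sum_of_subset_of_nonneg Finset.inter_subset_right fun i _ _ => norm_nonneg _)

variable [NormedSpace ℝ X]

/-- Bounded multipliers. -/
theorem mult_bound {v : Γ → X} {G : Finset Γ} {C : ℝ} (hC : 0 ≤ C)
    (hv : ∀ F ⊆ G, ‖∑ i ∈ F, v i‖ ≤ C) (a : Γ → ℝ) (ha : ∀ i, |a i| ≤ 1) :
    ‖∑ i ∈ G, a i • v i‖ ≤ 2 * C := by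
  classical
  refine NormedSpace.norm_le_dual_bound ℝ _ (by positivity) fun l => ?_
  rw [map_sum, Real.norm_eq_abs]
  have h1 : |∑ i ∈ G, l (a i • v i)| ≤ ∑ i ∈ G, |l (v i)| := by
    refine (Finset.abs_sum_le_sum_abs _ _).trans (Finset.sum_le_sum fun i _ => ?_)
    rw [map_smul, smul_eq_mul, abs_mul]
    exact mul_le_of_le_one_left (abs_nonneg _) (ha i)
  have h2 : ∑ i ∈ G, |l (v i)| = l (∑ i ∈ G with 0 ≤ l (v i), v i) -
      l (∑ i ∈ G with ¬ 0 ≤ l (v i), v i) := by
    rw [← Finset.sum_filter_add_sum_filter_not G (fun i => 0 ≤ l (v i)), map_sum, map_sum,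
      sub_eq_add_neg, ← Finset.sum_neg_distrib]
    congr 1
    · refine Finset.sum_congr rfl fun i hi => ?_
      exact abs_of_nonneg (Finset.mem_filter.1 hi).2
    · refine Finset.sum_congr rfl fun i hi => ?_
      exact abs_of_neg (not_le.1 (Finset.mem_filter.1 hi).2)
  have h3 : ∀ F ⊆ G, |l (∑ i ∈ F, v i)| ≤ ‖l‖ * C := fun F hF =>
    (l.le_opNorm _).trans (mul_le_mul_of_nonneg_left (hv F hF) (norm_nonneg _))
  have h4 := abs_le.1 (h3 _ (Finset.filter_subset (fun i => 0 ≤ l (v i)) G))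
  have h5 := abs_le.1 (h3 _ (Finset.filter_subset (fun i => ¬ 0 ≤ l (v i)) G))
  rw [h2] at h1
  linarith [h4.2, h5.1]

/-- The multiplier form for differences of Lipschitz functions. -/
theorem lip_bound {G : Finset Γ} {C : ℝ} (hC : 0 ≤ C) (e : Γ → X) (p q : Γ → ℝ)
    (hv : ∀ F ⊆ G, ‖∑ i ∈ F, (p i - q i) • e i‖ ≤ C) :
    ‖∑ i ∈ G, (g (p i) - g (q i)) • e i‖ ≤ 2 * C := by
  have h := mult_bound hC hv (fun i => (g (p i) - g (q i)) / (p i - q i)) (fun i => by
    rw [abs_div]
    exact div_le_one_of_le₀ (g_lip _ _) (abs_nonneg _))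
  refine le_trans (le_of_eq ?_) h
  congr 1
  refine Finset.sum_congr rfl fun i _ => ?_
  rw [smul_smul]
  congr 1
  rcases eq_or_ne (p i) (q i) with h0 | h0
  · rw [h0]; simp
  · rw [div_mul_cancel₀ _ (sub_ne_zero.2 h0)]

end sums

/-- `(e, f)` is a biorthogonal system in `X` such that `∑ f γ x • e γ` converges unconditionally
for all `x`. -/
structure UncSys {X Γ : Type*} [NormedAddCommGroup X] [NormedSpace ℝ X] (e : Γ → X)
    (f : Γ → X →L[ℝ] ℝ) : Prop where
  self : ∀ γ, f γ (e γ) = 1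
  other : ∀ γ δ, γ ≠ δ → f γ (e δ) = 0
  summable : ∀ x, Summable (fun γ => f γ x • e γ)

section main

variable {X : Type*} [NormedAddCommGroup X] [NormedSpace ℝ X] [CompleteSpace X] {Γ : Type*}
  {e : Γ → X} {f : Γ → X →L[ℝ] ℝ}

theorem UncSys.bound (h : UncSys e f) : ∃ K : ℝ, 0 < K ∧ ∀ (F : Finset Γ) (x : X),
    ‖∑ γ ∈ F, f γ x • e γ‖ ≤ K * ‖x‖ := by
  let P : Finset Γ → X →L[ℝ] X := fun F => ∑ γ ∈ F, (f γ).smulRight (e γ)
  have hP : ∀ F x, P F x = ∑ γ ∈ F, f γ x • e γ := fun F x => by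
    simp [P]
  obtain ⟨C, hC⟩ := banach_steinhaus (g := P) (fun x => by
    obtain ⟨C, hC⟩ := partial_bound (h.summable x)
    exact ⟨C, fun F => by rw [hP]; exact hC F⟩)
  refine ⟨max C 1, lt_max_of_lt_right one_pos, fun F x => ?_⟩
  rw [← hP]
  refine ((P F).le_opNorm x).trans (mul_le_mul_of_nonneg_right ?_ (norm_nonneg _))
  exact (hC F).trans (le_max_left _ _)

theorem UncSys.summable_g (h : UncSys e f) (x : X) : Summable (fun γ => g (f γ x) • e γ) := by
  rw [summable_iff_vanishing_norm]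
  intro ε hε
  obtain ⟨s, hs⟩ := summable_iff_vanishing_norm.1 (h.summable x) (ε / 4) (by positivity)
  refine ⟨s, fun t ht => ?_⟩
  have := lip_bound (G := t) (C := ε / 4) (by positivity) e (fun γ => f γ x) (fun _ => 0)
    (fun F hF => by
      simp only [sub_zero]
      exact (hs F (Finset.disjoint_of_subset_left hF ht)).le)
  simp only [g_zero, sub_zero] at this
  linarith

theorem UncSys.lip_g (h : UncSys e f) : ∃ K : ℝ, 0 < K ∧ ∀ x y : X,
    ‖∑' γ, g (f γ x) • e γ - ∑' γ, g (f γ y) • e γ‖ ≤ K * ‖x - y‖ := by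
  obtain ⟨K, hK, hb⟩ := h.bound
  refine ⟨2 * K, by positivity, fun x y => ?_⟩
  rw [← (h.summable_g x).tsum_sub (h.summable_g y)]
  have hs : Summable (fun γ => g (f γ x) • e γ - g (f γ y) • e γ) :=
    (h.summable_g x).sub (h.summable_g y)
  refine le_of_tendsto hs.hasSum.norm (Eventually.of_forall fun F => ?_)
  have := lip_bound (G := F) (C := K * ‖x - y‖) (by positivity) e (fun γ => f γ x)
    (fun γ => f γ y) (fun F' _ => by
      have h1 := hb F' (x - y)
      simpa only [map_sub] using h1)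
  simp only [sub_smul] at this
  linarith

omit [NormedSpace ℝ X] in
/-- A perturbation of the identity. -/
theorem bij_of_small {u : X → X} {δ : ℝ} (hδ' : δ ≤ 1 / 2)
    (hu : ∀ x y, ‖u x - u y‖ ≤ δ * ‖x - y‖) : LipHomeo (fun x => x + u x) := by
  have hlow : ∀ x y : X, ‖x - y‖ ≤ 2 * ‖(x + u x) - (y + u y)‖ := fun x y => by
    have h1 : x - y = ((x + u x) - (y + u y)) - (u x - u y) := by abel
    have h2 := norm_sub_le ((x + u x) - (y + u y)) (u x - u y)
    rw [← h1] at h2
    have h3 := hu x y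
    have h4 : δ * ‖x - y‖ ≤ 1 / 2 * ‖x - y‖ := mul_le_mul_of_nonneg_right hδ' (norm_nonneg _)
    linarith
  have hup : ∀ x y : X, ‖(x + u x) - (y + u y)‖ ≤ 2 * ‖x - y‖ := fun x y => by
    have h1 : (x + u x) - (y + u y) = (x - y) + (u x - u y) := by abel
    have h2 := norm_add_le (x - y) (u x - u y)
    rw [← h1] at h2
    have h3 := hu x y
    have h4 : δ * ‖x - y‖ ≤ 1 / 2 * ‖x - y‖ := mul_le_mul_of_nonneg_right hδ' (norm_nonneg _)
    have h5 := norm_nonneg (x - y)
    linarith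
  refine ⟨⟨fun x y hxy => ?_, fun y => ?_⟩, 2, two_pos, fun x y => ⟨hup x y, hlow x y⟩⟩
  · have h1 := hlow x y
    have h2 : x + u x = y + u y := hxy
    rw [h2, sub_self, norm_zero, mul_zero] at h1
    exact sub_eq_zero.1 (norm_le_zero_iff.1 h1)
  · have hc : ContractingWith (1 / 2) (fun x => y - u x) := by
      refine ⟨by norm_num, LipschitzWith.of_dist_le_mul fun a b => ?_⟩
      rw [dist_eq_norm, dist_eq_norm]
      have h1 : (y - u a) - (y - u b) = -(u a - u b) := by abel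
      rw [h1, norm_neg]
      refine (hu a b).trans (mul_le_mul_of_nonneg_right ?_ (norm_nonneg _))
      simpa using hδ'
    obtain ⟨x, hx, -⟩ := hc.exists_fixedPoint y (edist_ne_top _ _)
    refine ⟨x, ?_⟩
    have h2 : y - u x = x := hx
    have h3 : x + u x = y := (sub_eq_iff_eq_add.1 h2).symm
    exact h3

theorem UncSys.main (h : UncSys e f) {ε : ℝ} (hε : 0 < ε) :
    ∃ φ : X → X, LipHomeo φ ∧ (∀ x y, ‖(φ x - x) - (φ y - y)‖ ≤ ε * ‖x - y‖) ∧
      ∀ x γ (σ : ℝ), f γ x = 0 → |σ| = 1 → ¬ OneSidedAt φ x (σ • e γ) := by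
  obtain ⟨K, hK, hL⟩ := h.lip_g
  let δ : ℝ := min ε (1 / 2) / K
  have hm : 0 < min ε (1 / 2) := lt_min hε (by norm_num)
  have hδ : 0 < δ := div_pos hm hK
  let u : X → X := fun x => δ • ∑' γ, g (f γ x) • e γ
  have hu : ∀ x y, ‖u x - u y‖ ≤ min ε (1 / 2) * ‖x - y‖ := fun x y => by
    have h1 : u x - u y = δ • (∑' γ, g (f γ x) • e γ - ∑' γ, g (f γ y) • e γ) :=
      (smul_sub _ _ _).symm
    rw [h1, norm_smul, Real.norm_eq_abs, abs_of_pos hδ]
    have h2 := mul_le_mul_of_nonneg_left (hL x y) hδ.le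
    have h3 : δ * (K * ‖x - y‖) = min ε (1 / 2) * ‖x - y‖ := by
      rw [← mul_assoc, div_mul_cancel₀ _ hK.ne']
    rw [h3] at h2
    exact h2
  refine ⟨fun x => x + u x, bij_of_small (min_le_right _ _) hu, fun x y => ?_,
    fun x γ σ hx hσ hw => ?_⟩
  · rw [add_sub_cancel_left, add_sub_cancel_left]
    exact (hu x y).trans (mul_le_mul_of_nonneg_right (min_le_left _ _) (norm_nonneg _))
  · obtain ⟨w, hw⟩ := hw
    have hdiff : ∀ t : ℝ, (x + t • σ • e γ + u (x + t • σ • e γ)) - (x + u x) =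
        (t * σ + δ * g (t * σ)) • e γ := fun t => by
      have h1 : u (x + t • σ • e γ) - u x = (δ * g (t * σ)) • e γ := by
        have h2 : u (x + t • σ • e γ) - u x = δ • (∑' γ', (g (f γ' (x + t • σ • e γ)) • e γ' -
            g (f γ' x) • e γ')) := by
          rw [(h.summable_g _).tsum_sub (h.summable_g x)]
          exact (smul_sub _ _ _).symm
        rw [h2, tsum_eq_single γ, ← smul_smul]
        · congr 1
          rw [map_add, map_smul, map_smul, h.self, hx, g_zero, zero_smul, sub_zero, zero_add,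
            smul_eq_mul, smul_eq_mul, mul_one]
        · intro γ' hγ'
          rw [map_add, map_smul, map_smul, h.other γ' γ hγ', smul_zero, smul_zero, add_zero,
            sub_self]
      rw [add_smul, ← h1, smul_smul]
      abel
    have hT : Tendsto (fun t : ℝ => f γ (t⁻¹ • ((x + t • σ • e γ + u (x + t • σ • e γ)) -
        (x + u x)))) (𝓝[>] 0) (𝓝 (f γ w)) := ((f γ).continuous.tendsto w).comp hw
    have hT2 : Tendsto (fun t : ℝ => δ⁻¹ * (f γ (t⁻¹ • ((x + t • σ • e γ +
        u (x + t • σ • e γ)) - (x + u x))) - σ)) (𝓝[>] 0) (𝓝 (δ⁻¹ * (f γ w - σ))) :=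
      (hT.sub_const σ).const_mul _
    refine g_not_conv σ hσ _ (hT2.congr' ?_)
    filter_upwards [self_mem_nhdsWithin] with t ht
    have ht' : t ≠ 0 := (mem_Ioi.1 ht).ne'
    rw [hdiff, map_smul, map_smul, h.self, smul_eq_mul, smul_eq_mul, mul_one]
    field_simp
    ring

theorem not_gateaux_of_not_oneSided {Y Z : Type*} [NormedAddCommGroup Y] [NormedSpace ℝ Y]
    [NormedAddCommGroup Z] [NormedSpace ℝ Z] {φ : Y → Z} {x h : Y} (hn : ¬ OneSidedAt φ x h) :
    ¬ GateauxAt φ x := by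
  rintro ⟨T, hT⟩
  exact hn ⟨T h, (hT h).mono_left (nhdsWithin_mono _ fun t ht => (mem_Ioi.1 ht).ne')⟩

omit [CompleteSpace X] in
theorem UncSys.countable_support (h : UncSys e f) (x : X) : {γ | f γ x ≠ 0}.Countable := by
  refine (h.summable x).countable_support.mono fun γ hγ => ?_
  rw [Function.mem_support]
  intro h0
  apply hγ
  have := congrArg (f γ) h0
  rwa [map_smul, h.self, map_zero, smul_eq_mul, mul_one] at this

end main

theorem hilbert_uncSys.{u} (H : Type u) [NormedAddCommGroup H] [InnerProductSpace ℝ H]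
    [CompleteSpace H] (hH : ¬ TopologicalSpace.SeparableSpace H) :
    ∃ (Γ : Type u) (e : Γ → H) (f : Γ → H →L[ℝ] ℝ), Uncountable Γ ∧ UncSys e f ∧
      ∀ γ, ‖e γ‖ = 1 := by
  obtain ⟨w, b, hb⟩ := exists_hilbertBasis ℝ H
  refine ⟨w, fun γ => b γ, fun γ => innerSL ℝ (b γ), ?_, ⟨?_, ?_, ?_⟩, ?_⟩
  · by_contra hc
    rw [not_uncountable_iff] at hc
    apply hH
    have h1 : TopologicalSpace.IsSeparable (Submodule.span ℝ (range b) : Set H) :=
      (countable_range b).isSeparable.span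
    have h2 := h1.closure
    rw [← Submodule.topologicalClosure_coe, b.dense_span, Submodule.top_coe] at h2
    exact TopologicalSpace.isSeparable_univ_iff.1 h2
  · intro γ
    have := b.orthonormal.1 γ
    rw [innerSL_apply_apply, real_inner_self_eq_norm_sq, this, one_pow]
  · intro γ δ hne
    rw [innerSL_apply_apply]
    exact b.orthonormal.2 hne
  · intro x
    have := (b.hasSum_repr x).summable
    simpa only [HilbertBasis.repr_apply_apply, innerSL_apply_apply] using this
  · exact b.orthonormal.1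

/-- Two points of an orthonormal family have distance `√2`. -/
theorem not_separable_of_orthonormal {H : Type*} [NormedAddCommGroup H] [InnerProductSpace ℝ H]
    {Γ : Type*} [Uncountable Γ] {v : Γ → H} (hv : Orthonormal ℝ v) :
    ¬ TopologicalSpace.SeparableSpace H := by
  intro hs
  have hc : (univ : Set Γ).Countable := by
    refine Set.PairwiseDisjoint.countable_of_isOpen (s := fun γ => Metric.ball (v γ) (1 / 2))
      (fun γ _ δ _ hne => ?_) (fun γ _ => Metric.isOpen_ball)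
      (fun γ _ => ⟨v γ, Metric.mem_ball_self (by norm_num)⟩)
    refine Metric.ball_disjoint_ball ?_
    have h1 : ‖v γ - v δ‖ * ‖v γ - v δ‖ = 2 := by
      rw [norm_sub_sq_eq_norm_sq_add_norm_sq_real (hv.2 hne), hv.1 γ, hv.1 δ]
      norm_num
    rw [dist_eq_norm]
    by_contra hlt
    have h2 : ‖v γ - v δ‖ < 1 := by linarith
    have h3 := norm_nonneg (v γ - v δ)
    nlinarith
  exact not_countable (α := Γ) (countable_univ_iff.1 hc)

theorem exists_nonseparable : ∃ (H : Type) (_ : NormedAddCommGroup H) (_ : InnerProductSpace ℝ H)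
    (_ : CompleteSpace H), ¬ TopologicalSpace.SeparableSpace H := by
  classical
  refine ⟨lp (fun _ : ℝ => ℝ) 2, inferInstance, inferInstance, inferInstance, ?_⟩
  let b : HilbertBasis ℝ ℝ (lp (fun _ : ℝ => ℝ) 2) := ⟨LinearIsometryEquiv.refl ℝ _⟩
  have hb : Orthonormal ℝ b := b.orthonormal
  exact not_separable_of_orthonormal hb

end Pool.Agent.U583.LG
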